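import Mathlib
import Pool.Agent.H383.Voronoi

/-! Elementary inequalities used for an explicit bound in the circle problem. -/

open MeasureTheory Set Filter Topology
open Pool.Agent.H383.Gauss

namespace Pool.Agent.TH854.GC

/-- `b^(-3/4)` through fourth powers -/
lemma rpow_pow4 {b : ℝ} (hb : 0 < b) : (b ^ (-(3/4):ℝ)) ^ 4 = (b ^ 3)⁻¹ := by
  rw [← Real.rpow_natCast, ← Real.rpow_mul hb.le]
  rw [show (-(3/4):ℝ) * ((4:ℕ):ℝ) = -((3:ℕ):ℝ) by norm_num, Real.rpow_neg hb.le, Real.rpow_natCast]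

lemma le_rpow_of {a b : ℝ} (ha : 0 ≤ a) (hb : 0 < b) (h : a ^ 4 * b ^ 3 ≤ 1) :
    a ≤ b ^ (-(3/4):ℝ) := by
  have h0 : 0 ≤ b ^ (-(3/4):ℝ) := by positivity
  rw [← pow_le_pow_iff_left₀ ha h0 (n := 4) (by norm_num), rpow_pow4 hb]
  rw [← one_div, le_div_iff₀ (by positivity)]
  exact h

lemma rpow_le_of {a b : ℝ} (ha : 0 ≤ a) (hb : 0 < b) (h : 1 ≤ a ^ 4 * b ^ 3) :
    b ^ (-(3/4):ℝ) ≤ a := by
  have h0 : 0 ≤ b ^ (-(3/4):ℝ) := by positivity
  rw [← pow_le_pow_iff_left₀ h0 ha (n := 4) (by norm_num), rpow_pow4 hb]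
  rw [inv_le_iff_one_le_mul₀ (by positivity)]
  exact h


lemma q_bound {x : ℝ} (hx : 0 ≤ x) :
    (1 + x) ^ (-(3/4):ℝ) ≤ 1 - 3/4 * x + 21/32 * x^2 := by
  have h0 : 0 ≤ 1 - 3/4 * x + 21/32 * x^2 := by nlinarith [sq_nonneg (x - 4/7)]
  apply rpow_le_of h0 (by linarith)
  have e : (1 - 3/4 * x + 21/32 * x^2)^4 * (1+x)^3 - 1 =
      x^3 * ((77/32) * x^0 + (-231/512) * x^1 + (231/1024) * x^2 + (2079/1024) * x^3 + (-23463/32768) * x^4 + (430353/1048576) * x^5 + (625779/1048576) * x^6 + (-305613/1048576) * x^7 + (194481/1048576) * x^8) := by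
    ring
  have h1 : 0 ≤ (77/32) * x^0 + (-231/512) * x^1 + (231/1024) * x^2 + (2079/1024) * x^3 + (-23463/32768) * x^4 + (430353/1048576) * x^5 + (625779/1048576) * x^6 + (-305613/1048576) * x^7 + (194481/1048576) * x^8 := by
    have a1 : 0 ≤ (77/32) + (-231/512) * x + (231/1024) * x^2 := by nlinarith [sq_nonneg (x - 1)]
    have a2 : 0 ≤ (2079/1024) + (-23463/32768) * x + (430353/1048576) * x^2 := by nlinarith [sq_nonneg (x - 1)]
    have a3 : 0 ≤ (625779/1048576) + (-305613/1048576) * x + (194481/1048576) * x^2 := by nlinarith [sq_nonneg (x - 1)]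
    have b2 := mul_nonneg (pow_nonneg hx 3) a2
    have b3 := mul_nonneg (pow_nonneg hx 6) a3
    nlinarith [a1, b2, b3]
  have h2 := mul_nonneg (pow_nonneg hx 3) h1
  linarith

lemma sin_lower {x : ℝ} (hx : 0 ≤ x) : x - x^3/6 ≤ Real.sin x := by
  have h : MonotoneOn (fun y : ℝ => Real.sin y - (y - y^3/6)) (Ici 0) := by
    apply monotoneOn_of_deriv_nonneg (convex_Ici 0) (by fun_prop) (by fun_prop)
    intro y hy
    have hd : HasDerivAt (fun y : ℝ => Real.sin y - (y - y^3/6)) (Real.cos y - (1 - 3*y^2/6)) y := by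
      refine HasDerivAt.congr_deriv
        ((Real.hasDerivAt_sin y).sub ((hasDerivAt_id y).sub ((hasDerivAt_pow 3 y).div_const 6))) ?_
      norm_num
    rw [hd.deriv]
    have := Real.one_sub_sq_div_two_le_cos (x := y)
    linarith
  have := h (mem_Ici.mpr le_rfl) (mem_Ici.mpr hx) hx
  simp only [Real.sin_zero] at this
  linarith

lemma cos_upper_aux {x : ℝ} (hx : 0 ≤ x) : Real.cos x ≤ 1 - x^2/2 + x^4/24 := by
  have h : MonotoneOn (fun y : ℝ => (1 - y^2/2 + y^4/24) - Real.cos y) (Ici 0) := by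
    apply monotoneOn_of_deriv_nonneg (convex_Ici 0) (by fun_prop) (by fun_prop)
    intro y hy
    have hd : HasDerivAt (fun y : ℝ => (1 - y^2/2 + y^4/24) - Real.cos y)
        ((0 - 2*y/2 + 4*y^3/24) - (-Real.sin y)) y := by
      refine HasDerivAt.congr_deriv (((((hasDerivAt_const y (1:ℝ)).sub ((hasDerivAt_pow 2 y).div_const 2))).add
        ((hasDerivAt_pow 4 y).div_const 24)).sub (Real.hasDerivAt_cos y)) ?_
      norm_num
    rw [hd.deriv]
    rw [interior_Ici] at hy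
    have := sin_lower (x := y) (le_of_lt hy)
    linarith
  have := h (mem_Ici.mpr le_rfl) (mem_Ici.mpr hx) hx
  simp only [Real.cos_zero] at this
  linarith

lemma cos_upper (x : ℝ) : Real.cos x ≤ 1 - x^2/2 + x^4/24 := by
  have h := cos_upper_aux (abs_nonneg x)
  rw [Real.cos_abs] at h
  have h2 : |x|^4 = x^4 := by rw [show 4 = 2*2 by norm_num, pow_mul, sq_abs, pow_mul]
  rw [sq_abs, h2] at h
  exact h

lemma hd_one_sub (x : ℝ) : HasDerivAt (fun x : ℝ => 1 - x^2) (-(2*x)) x := by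
  refine HasDerivAt.congr_deriv ((hasDerivAt_const x (1:ℝ)).sub (hasDerivAt_pow 2 x)) ?_
  norm_num

lemma mom_aux (n : ℕ) :
    ∫ x in (-1:ℝ)..1, √(1 - x^2) * (((n:ℝ)+1) * x^n * (1 - x^2) - 3 * x^(n+2)) = 0 := by
  have h := intervalIntegral.integral_eq_sub_of_hasDerivAt_of_le (a := (-1:ℝ)) (b := 1)
    (f := fun x : ℝ => x^(n+1) * ((1 - x^2) * √(1 - x^2)))
    (f' := fun x => √(1 - x^2) * (((n:ℝ)+1) * x^n * (1 - x^2) - 3 * x^(n+2)))
    (by norm_num) (by fun_prop) (by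
      intro x hx
      have hx1 : 0 < 1 - x^2 := by nlinarith [hx.1, hx.2]
      have hs : HasDerivAt (fun x : ℝ => √(1 - x^2)) (-(2*x) / (2 * √(1 - x^2))) x :=
        (hd_one_sub x).sqrt hx1.ne'
      refine HasDerivAt.congr_deriv ((hasDerivAt_pow (n+1) x).mul ((hd_one_sub x).mul hs)) ?_
      have hsq : √(1 - x^2) * √(1 - x^2) = 1 - x^2 := Real.mul_self_sqrt hx1.le
      have hsp : 0 < √(1 - x^2) := Real.sqrt_pos.mpr hx1
      simp only [Nat.add_sub_cancel, Pi.mul_apply]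
      have e0 : -(2*x) / (2 * √(1 - x^2)) = -x * √(1 - x^2) / (1 - x^2) := by
        rw [div_eq_div_iff (by positivity) hx1.ne']
        linear_combination (2 * x) * hsq
      rw [e0]
      field_simp
      push_cast
      ring)
    (by
      apply Continuous.intervalIntegrable
      fun_prop)
  rw [h]
  norm_num

end Pool.Agent.TH854.GC
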