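import Mathlib
import Pool.Agent.TH854.GC.A1

/-! Bounds for the function `J`. -/

open MeasureTheory Set Filter Topology
open Pool.Agent.H383.Gauss

namespace Pool.Agent.TH854.GC

lemma m0 : ∫ x in (-1:ℝ)..1, √(1 - x^2) = Real.pi / 2 := integral_sqrt_one_sub_sq

lemma m2 : ∫ x in (-1:ℝ)..1, √(1 - x^2) * x^2 = Real.pi / 8 := by
  have h := mom_aux 0
  have e : (fun x : ℝ => √(1 - x^2) * ((((0:ℕ):ℝ)+1) * x^0 * (1 - x^2) - 3 * x^(0+2))) =
      fun x => √(1 - x^2) - 4 * (√(1 - x^2) * x^2) := by
    funext x; push_cast; ring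
  rw [e, intervalIntegral.integral_sub, intervalIntegral.integral_const_mul, m0] at h
  · linarith
  · apply Continuous.intervalIntegrable; fun_prop
  · apply Continuous.intervalIntegrable; fun_prop

lemma m4 : ∫ x in (-1:ℝ)..1, √(1 - x^2) * x^4 = Real.pi / 16 := by
  have h := mom_aux 2
  have e : (fun x : ℝ => √(1 - x^2) * ((((2:ℕ):ℝ)+1) * x^2 * (1 - x^2) - 3 * x^(2+2))) =
      fun x => 3 * (√(1 - x^2) * x^2) - 6 * (√(1 - x^2) * x^4) := by
    funext x; push_cast; ring
  rw [e, intervalIntegral.integral_sub, intervalIntegral.integral_const_mul,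
    intervalIntegral.integral_const_mul, m2] at h
  · linarith
  · apply Continuous.intervalIntegrable; fun_prop
  · apply Continuous.intervalIntegrable; fun_prop

lemma J_upper (l : ℝ) : J l ≤ Real.pi * (1 - Real.pi^2 * l^2 / 2 + Real.pi^4 * l^4 / 12) := by
  unfold J
  have h : ∫ x in (-1:ℝ)..1, 2 * √(1 - x^2) * Real.cos (2 * Real.pi * l * x) ≤
      ∫ x in (-1:ℝ)..1, (2 * √(1 - x^2) - (2 * Real.pi * l)^2 * (√(1 - x^2) * x^2) +
        (2 * Real.pi * l)^4 / 12 * (√(1 - x^2) * x^4)) := by
    apply intervalIntegral.integral_mono_on (by norm_num)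
    · apply Continuous.intervalIntegrable; fun_prop
    · apply Continuous.intervalIntegrable; fun_prop
    · intro x _
      have h1 := cos_upper (2 * Real.pi * l * x)
      have h2 : 0 ≤ √(1 - x^2) := Real.sqrt_nonneg _
      nlinarith [mul_le_mul_of_nonneg_left h1 h2]
  refine h.trans (le_of_eq ?_)
  rw [intervalIntegral.integral_add, intervalIntegral.integral_sub, intervalIntegral.integral_const_mul,
    intervalIntegral.integral_const_mul, intervalIntegral.integral_const_mul, m0, m2, m4]
  · ring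
  all_goals (apply Continuous.intervalIntegrable; fun_prop)

lemma J_lower (l : ℝ) : Real.pi * (1 - Real.pi^2 * l^2 / 2) ≤ J l := by
  unfold J
  have h : ∫ x in (-1:ℝ)..1, (2 * √(1 - x^2) - (2 * Real.pi * l)^2 * (√(1 - x^2) * x^2)) ≤
      ∫ x in (-1:ℝ)..1, 2 * √(1 - x^2) * Real.cos (2 * Real.pi * l * x) := by
    apply intervalIntegral.integral_mono_on (by norm_num)
    · apply Continuous.intervalIntegrable; fun_prop
    · apply Continuous.intervalIntegrable; fun_prop
    · intro x _
      have h1 := Real.one_sub_sq_div_two_le_cos (x := 2 * Real.pi * l * x)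
      have h2 : 0 ≤ √(1 - x^2) := Real.sqrt_nonneg _
      nlinarith [mul_le_mul_of_nonneg_left h1 h2]
  refine (le_of_eq ?_).trans h
  rw [intervalIntegral.integral_sub, intervalIntegral.integral_const_mul,
    intervalIntegral.integral_const_mul, m0, m2]
  · ring
  all_goals (apply Continuous.intervalIntegrable; fun_prop)

lemma P_ineq {u : ℝ} (hu : 0 ≤ u) (hu1 : u ≤ 14/100) :
    (1 - 493/100 * u + 812/100 * u^2)^4 * (1 + 13/2 * u)^3 ≤ 1 := by
  have e : 1 - (1 - 493/100 * u + 812/100 * u^2)^4 * (1 + 13/2 * u)^3 =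
      u * ((11/50) * u^0 + (397403/5000) * u^1 + (-36559559/125000) * u^2 + (-182611482401/100000000) * u^3 + (3009588415433/200000000) * u^4 + (-8579387931843/400000000) * u^5 + (-121802042565381/800000000) * u^6 + (42569540525631/50000000) * u^7 + (-49381434662287/25000000) * u^8 + (7338813433133/3125000) * u^9 + (-3730905153157/3125000) * u^10) := by ring
  have t1 : 0 ≤ (397403/5000) + (-36559559/125000) * u + (-182611482401/100000000) * u^2 := by nlinarith
  have t2 : 0 ≤ (3009588415433/200000000) + (-8579387931843/400000000) * u + (-121802042565381/800000000) * u^2 := by nlinarith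
  have t3 : 0 ≤ (42569540525631/50000000) + (-49381434662287/25000000) * u := by nlinarith
  have t4 : 0 ≤ (7338813433133/3125000) + (-3730905153157/3125000) * u := by nlinarith
  have b1 := mul_nonneg (pow_nonneg hu 1) t1
  have b2 := mul_nonneg (pow_nonneg hu 4) t2
  have b3 := mul_nonneg (pow_nonneg hu 7) t3
  have b4 := mul_nonneg (pow_nonneg hu 9) t4
  have hs : 0 ≤ ((11/50) * u^0 + (397403/5000) * u^1 + (-36559559/125000) * u^2 + (-182611482401/100000000) * u^3 + (3009588415433/200000000) * u^4 + (-8579387931843/400000000) * u^5 + (-121802042565381/800000000) * u^6 + (42569540525631/50000000) * u^7 + (-49381434662287/25000000) * u^8 + (7338813433133/3125000) * u^9 + (-3730905153157/3125000) * u^10) := by nlinarith [b1, b2, b3, b4]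
  have := mul_nonneg hu hs
  linarith

lemma J_small {l : ℝ} (hl : 0 ≤ l) (h : l ≤ 37/100) :
    |J l| ≤ Real.pi * (1 + 13/2 * l^2) ^ (-(3/4):ℝ) := by
  have hp1 := Real.pi_gt_d4
  have hp2 := Real.pi_lt_d4
  have hpi2 : Real.pi^2 < 98698/10000 := by nlinarith
  have hpi2' : 986/100 < Real.pi^2 := by nlinarith
  have hpi4 : Real.pi^4 < 9744/100 := by nlinarith
  have hu : l^2 ≤ 1369/10000 := by nlinarith
  have hu0 : 0 ≤ l^2 := sq_nonneg l
  have hJ0 : 0 ≤ J l := by
    refine le_trans ?_ (J_lower l)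
    apply mul_nonneg Real.pi_pos.le
    nlinarith
  rw [abs_of_nonneg hJ0]
  refine (J_upper l).trans ?_
  apply mul_le_mul_of_nonneg_left _ Real.pi_pos.le
  have h4 : (1 - Real.pi^2 * l^2 / 2 + Real.pi^4 * l^4 / 12) ≤
      1 - 493/100 * l^2 + 812/100 * (l^2)^2 := by
    have : l^4 = (l^2)^2 := by ring
    rw [this]
    nlinarith [sq_nonneg (l^2), mul_nonneg hu0 hu0]
  refine h4.trans ?_
  apply le_rpow_of
  · nlinarith [sq_nonneg (l^2 - 3/10)]
  · positivity
  · exact P_ineq hu0 (by linarith)

end Pool.Agent.TH854.GC
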