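import Mathlib
import Pool.Agent.TH854.GC.A2

/-! Bounds for the function `J`, large arguments. -/

open MeasureTheory Set Filter Topology
open Pool.Agent.H383.Gauss

namespace Pool.Agent.TH854.GC

lemma rpow32_pow4 {l : ℝ} (hl : 0 < l) : (l ^ (-(3/2):ℝ)) ^ 4 = (l ^ 6)⁻¹ := by
  rw [← Real.rpow_natCast, ← Real.rpow_mul hl.le]
  rw [show (-(3/2):ℝ) * ((4:ℕ):ℝ) = -((6:ℕ):ℝ) by norm_num, Real.rpow_neg hl.le, Real.rpow_natCast]

/-- the simple form of the asymptotic bound -/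
lemma J_abs {l : ℝ} (hl : 0 < l) :
    |J l| ≤ (1 / Real.pi) * l ^ (-(3/2):ℝ) * (1 + 3 / (8 * Real.pi * l)) := by
  have h1 := J_asymp hl
  have h2 : |(1 / Real.pi) * l ^ (-(3/2):ℝ) * Real.sin (2 * Real.pi * l - Real.pi/4)| ≤
      (1 / Real.pi) * l ^ (-(3/2):ℝ) := by
    rw [abs_mul, abs_of_nonneg (by positivity : 0 ≤ (1 / Real.pi) * l ^ (-(3/2):ℝ))]
    have := Real.abs_sin_le_one (2 * Real.pi * l - Real.pi/4)
    have h3 : 0 ≤ (1 / Real.pi) * l ^ (-(3/2):ℝ) := by positivity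
    nlinarith
  have h3 : (3 / (8 * Real.pi ^ 2)) * l ^ (-(5/2):ℝ) =
      (1 / Real.pi) * l ^ (-(3/2):ℝ) * (3 / (8 * Real.pi * l)) := by
    rw [show (-(5/2):ℝ) = -(3/2) + (-1) by norm_num, Real.rpow_add hl, Real.rpow_neg_one]
    field_simp
  have h4 : |J l| ≤ |J l - (1 / Real.pi) * l ^ (-(3/2):ℝ) * Real.sin (2 * Real.pi * l - Real.pi/4)| +
      |(1 / Real.pi) * l ^ (-(3/2):ℝ) * Real.sin (2 * Real.pi * l - Real.pi/4)| := by
    have := abs_add_le (J l - (1 / Real.pi) * l ^ (-(3/2):ℝ) * Real.sin (2 * Real.pi * l - Real.pi/4))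
      ((1 / Real.pi) * l ^ (-(3/2):ℝ) * Real.sin (2 * Real.pi * l - Real.pi/4))
    simpa using this
  rw [h3] at h1
  linarith

lemma J_large {l : ℝ} (h : 37/100 ≤ l) :
    |J l| ≤ Real.pi * (1 + 13/2 * l^2) ^ (-(3/4):ℝ) := by
  have hl : 0 < l := by linarith
  have hpi := Real.pi_gt_d4
  have key : (1 / Real.pi^2) * l ^ (-(3/2):ℝ) * (1 + 3 / (8 * Real.pi * l)) ≤
      (1 + 13/2 * l^2) ^ (-(3/4):ℝ) := by
    apply le_rpow_of (by positivity) (by positivity)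
    have e : ((1 / Real.pi^2) * l ^ (-(3/2):ℝ) * (1 + 3 / (8 * Real.pi * l)))^4 * (1 + 13/2 * l^2)^3 =
        (1 / Real.pi^8) * ((1 + 3 / (8 * Real.pi * l))^4 * (1/l^2 + 13/2)^3) := by
      rw [mul_pow, mul_pow, rpow32_pow4 hl]
      field_simp
    rw [e, one_div, inv_mul_le_iff₀ (by positivity), mul_one]
    have h1 : 3 / (8 * Real.pi * l) ≤ 323/1000 := by
      rw [div_le_iff₀ (by positivity)]
      nlinarith
    have h2 : 1 / l^2 ≤ 731/100 := by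
      rw [div_le_iff₀ (by positivity)]
      nlinarith
    have h3 : (1 + 3 / (8 * Real.pi * l))^4 ≤ (1 + 323/1000)^4 := by
      gcongr
    have h4 : (1/l^2 + 13/2)^3 ≤ (731/100 + 13/2)^3 := by
      gcongr
    have h5 : (3.1415:ℝ)^8 ≤ Real.pi^8 := by
      gcongr
    calc (1 + 3 / (8 * Real.pi * l))^4 * (1/l^2 + 13/2)^3 ≤ (1 + 323/1000)^4 * (731/100 + 13/2)^3 := by
          gcongr
      _ ≤ (3.1415:ℝ)^8 := by norm_num
      _ ≤ Real.pi^8 := h5
  calc |J l| ≤ (1 / Real.pi) * l ^ (-(3/2):ℝ) * (1 + 3 / (8 * Real.pi * l)) := J_abs hl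
    _ = Real.pi * ((1 / Real.pi^2) * l ^ (-(3/2):ℝ) * (1 + 3 / (8 * Real.pi * l))) := by
        field_simp
    _ ≤ _ := mul_le_mul_of_nonneg_left key Real.pi_pos.le

lemma J_le_all {l : ℝ} (hl : 0 ≤ l) :
    |J l| ≤ Real.pi * (1 + 13/2 * l^2) ^ (-(3/4):ℝ) := by
  rcases le_total l (37/100) with h | h
  · exact J_small hl h
  · exact J_large h

/-- the function that is summed over the lattice, `t = |p|²` -/
noncomputable def hh (g t : ℝ) : ℝ := (t * (1 + g * t)) ^ (-(3/4):ℝ)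

lemma hh_nonneg {g t : ℝ} (hg : 0 ≤ g) (ht : 0 ≤ t) : 0 ≤ hh g t := by
  unfold hh; positivity

lemma hh_pos {g t : ℝ} (hg : 0 ≤ g) (ht : 0 < t) : 0 < hh g t := by
  unfold hh; positivity

/-- supporting lines -/
lemma hh_support {g t t0 : ℝ} (hg : 0 ≤ g) (ht : 0 < t) (ht0 : 0 < t0) :
    hh g t0 * (1 - (3/4) * (1/t0 + g/(1 + g*t0)) * (t - t0)) ≤ hh g t := by
  have h1 : hh g t = hh g t0 * ((t * (1 + g*t)) / (t0 * (1 + g*t0))) ^ (-(3/4):ℝ) := by
    unfold hh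
    rw [Real.div_rpow (by positivity) (by positivity)]
    have : (t0 * (1 + g * t0)) ^ (-(3/4):ℝ) ≠ 0 := by positivity
    field_simp
  rw [h1]
  apply mul_le_mul_of_nonneg_left _ (hh_nonneg hg ht0.le)
  have hq : 0 < (t * (1 + g*t)) / (t0 * (1 + g*t0)) := by positivity
  rw [Real.rpow_def_of_pos hq]
  have hlog : Real.log ((t * (1 + g*t)) / (t0 * (1 + g*t0))) ≤ (1/t0 + g/(1 + g*t0)) * (t - t0) := by
    have e : (t * (1 + g*t)) / (t0 * (1 + g*t0)) = (t/t0) * ((1 + g*t)/(1 + g*t0)) := by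
      field_simp
    rw [e, Real.log_mul (by positivity) (by positivity)]
    have a1 := Real.log_le_sub_one_of_pos (show 0 < t/t0 by positivity)
    have a2 := Real.log_le_sub_one_of_pos (show 0 < (1 + g*t)/(1 + g*t0) by positivity)
    have e2 : (1/t0 + g/(1 + g*t0)) * (t - t0) = (t/t0 - 1) + ((1 + g*t)/(1 + g*t0) - 1) := by
      field_simp
      ring
    linarith
  have h3 := Real.add_one_le_exp (Real.log ((t * (1 + g*t)) / (t0 * (1 + g*t0))) * (-(3/4)))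
  nlinarith

end Pool.Agent.TH854.GC
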