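import Mathlib
import Pool.Agent.TH854.GC.A3

/-! Lattice sums of `hh g (|p|²)` and integrals. -/

open MeasureTheory Set Filter Topology
open Pool.Agent.H383.Gauss

namespace Pool.Agent.TH854.GC

/-- the unit interval around the integer `n` -/
def I1 (n : ℤ) : Set ℝ := Ioc ((n:ℝ) - 1/2) ((n:ℝ) + 1/2)

/-- the unit square around `p` -/
def Q (p : ℤ × ℤ) : Set (ℝ × ℝ) := I1 p.1 ×ˢ I1 p.2

lemma I1_meas (n : ℤ) : MeasurableSet (I1 n) := measurableSet_Ioc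

lemma Q_meas (p : ℤ × ℤ) : MeasurableSet (Q p) := (I1_meas _).prod (I1_meas _)

lemma I1_int_one (n : ℤ) : ∫ _x in I1 n, (1:ℝ) = 1 := by
  unfold I1
  rw [← intervalIntegral.integral_of_le (by linarith)]
  simp
  ring

lemma I1_int_sq (n : ℤ) : ∫ x in I1 n, x^2 = (n:ℝ)^2 + 1/12 := by
  unfold I1
  rw [← intervalIntegral.integral_of_le (by linarith), integral_pow]
  push_cast
  ring

lemma Q_sub (p : ℤ × ℤ) : Q p ⊆ Icc (((p.1:ℝ) - 1/2, (p.2:ℝ) - 1/2) : ℝ × ℝ) ((p.1:ℝ) + 1/2, (p.2:ℝ) + 1/2) := by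
  rintro ⟨x, y⟩ ⟨⟨h1, h2⟩, ⟨h3, h4⟩⟩
  exact ⟨⟨h1.le, h3.le⟩, ⟨h2, h4⟩⟩

lemma Q_intOn {f : ℝ × ℝ → ℝ} (hf : Continuous f) (p : ℤ × ℤ) : IntegrableOn f (Q p) :=
  (hf.continuousOn.integrableOn_compact isCompact_Icc).mono_set (Q_sub p)

lemma Q_int_one (p : ℤ × ℤ) : ∫ _z in Q p, (1:ℝ) = 1 := by
  have := setIntegral_prod_mul (μ := (volume : Measure ℝ)) (ν := (volume : Measure ℝ))
    (fun _ => (1:ℝ)) (fun _ => (1:ℝ)) (I1 p.1) (I1 p.2)
  simp only [mul_one] at this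
  rw [Q, Measure.volume_eq_prod, this, I1_int_one, I1_int_one]
  norm_num

lemma Q_int_x (p : ℤ × ℤ) : ∫ z in Q p, z.1^2 = (p.1:ℝ)^2 + 1/12 := by
  have := setIntegral_prod_mul (μ := (volume : Measure ℝ)) (ν := (volume : Measure ℝ))
    (fun x => x^2) (fun _ => (1:ℝ)) (I1 p.1) (I1 p.2)
  simp only [mul_one] at this
  rw [Q, Measure.volume_eq_prod, this, I1_int_one, I1_int_sq]
  norm_num

lemma Q_int_y (p : ℤ × ℤ) : ∫ z in Q p, z.2^2 = (p.2:ℝ)^2 + 1/12 := by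
  have := setIntegral_prod_mul (μ := (volume : Measure ℝ)) (ν := (volume : Measure ℝ))
    (fun _ => (1:ℝ)) (fun x => x^2) (I1 p.1) (I1 p.2)
  simp only [one_mul] at this
  rw [Q, Measure.volume_eq_prod, this, I1_int_one, I1_int_sq]
  norm_num

lemma half_of_mem {n : ℤ} (hn : n ≠ 0) {x : ℝ} (hx : x ∈ I1 n) : 1/4 ≤ x^2 := by
  obtain ⟨h1, h2⟩ := hx
  rcases lt_or_gt_of_ne hn with h | h
  · have : (n:ℝ) ≤ -1 := by exact_mod_cast (by omega : n ≤ -1)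
    nlinarith
  · have : (1:ℝ) ≤ n := by exact_mod_cast (by omega : 1 ≤ n)
    nlinarith

lemma quarter_of_mem {p : ℤ × ℤ} (hp : p ≠ 0) {z : ℝ × ℝ} (hz : z ∈ Q p) :
    1/4 ≤ z.1^2 + z.2^2 := by
  by_cases h1 : p.1 = 0
  · have h2 : p.2 ≠ 0 := fun h => hp (Prod.ext h1 h)
    have := half_of_mem h2 hz.2
    nlinarith [sq_nonneg z.1]
  · have := half_of_mem h1 hz.1
    nlinarith [sq_nonneg z.2]

/-- the integrand -/
noncomputable def GG (g : ℝ) (z : ℝ × ℝ) : ℝ := hh g (z.1^2 + z.2^2 - 1/6)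

lemma GG_contOn {g : ℝ} (hg : 0 ≤ g) : ContinuousOn (GG g) {z : ℝ × ℝ | 1/4 ≤ z.1^2 + z.2^2} := by
  intro z hz
  apply ContinuousAt.continuousWithinAt
  have hz' : 1/4 ≤ z.1^2 + z.2^2 := hz
  unfold GG hh
  apply ContinuousAt.rpow_const
  · fun_prop
  · left
    have : 0 < z.1^2 + z.2^2 - 1/6 := by linarith
    positivity

lemma cell_int {g : ℝ} (hg : 0 ≤ g) {p : ℤ × ℤ} (hp : p ≠ 0) :
    hh g ((p.1:ℝ)^2 + (p.2:ℝ)^2) ≤ ∫ z in Q p, GG g z := by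
  have ht0 : 0 < (p.1:ℝ)^2 + (p.2:ℝ)^2 := by
    have := nz_ge_one hp
    unfold nz at this
    rw [Real.one_le_sqrt] at this
    linarith
  set t0 : ℝ := (p.1:ℝ)^2 + (p.2:ℝ)^2 with ht
  set κ : ℝ := (3/4) * (1/t0 + g/(1 + g*t0)) with hκ
  have hcont : Continuous (fun z : ℝ × ℝ => hh g t0 * (1 - κ * ((z.1^2 + z.2^2 - 1/6) - t0))) := by
    fun_prop
  have hint : ∫ z in Q p, hh g t0 * (1 - κ * ((z.1^2 + z.2^2 - 1/6) - t0)) = hh g t0 := by
    have e : (fun z : ℝ × ℝ => hh g t0 * (1 - κ * ((z.1^2 + z.2^2 - 1/6) - t0))) =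
        fun z => (hh g t0 * (1 + κ * (1/6 + t0))) * 1 - (hh g t0 * κ) * (z.1^2 + z.2^2) := by
      funext z; ring
    rw [e, integral_sub, integral_const_mul, integral_const_mul, integral_add, Q_int_one, Q_int_x, Q_int_y]
    · rw [ht]; ring
    · exact Q_intOn (by fun_prop) p
    · exact Q_intOn (by fun_prop) p
    · exact Q_intOn (by fun_prop) p
    · exact Q_intOn (by fun_prop) p
  rw [← hint]
  apply setIntegral_mono_on
  · exact Q_intOn hcont p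
  · have hK : IsCompact (Icc (((p.1:ℝ) - 1/2, (p.2:ℝ) - 1/2) : ℝ × ℝ) ((p.1:ℝ) + 1/2, (p.2:ℝ) + 1/2) ∩
        {z : ℝ × ℝ | 1/4 ≤ z.1^2 + z.2^2}) := by
      apply isCompact_Icc.inter_right
      exact isClosed_le (by fun_prop) (by fun_prop)
    have h1 : IntegrableOn (GG g) (Icc (((p.1:ℝ) - 1/2, (p.2:ℝ) - 1/2) : ℝ × ℝ) ((p.1:ℝ) + 1/2, (p.2:ℝ) + 1/2) ∩
        {z : ℝ × ℝ | 1/4 ≤ z.1^2 + z.2^2}) :=
      ((GG_contOn hg).mono inter_subset_right).integrableOn_compact hK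
    exact h1.mono_set (fun z hz => ⟨Q_sub p hz, quarter_of_mem hp hz⟩)
  · exact Q_meas p
  · intro z hz
    have hz1 := quarter_of_mem hp hz
    have := hh_support hg (t := z.1^2 + z.2^2 - 1/6) (t0 := t0) (by linarith) ht0
    rw [hκ]
    exact this

lemma Q_disj {p q : ℤ × ℤ} (h : p ≠ q) : Disjoint (Q p) (Q q) := by
  have key : ∀ (m n : ℤ) (x : ℝ), x ∈ I1 m → x ∈ I1 n → m = n := by
    intro m n x ⟨h1, h2⟩ ⟨h3, h4⟩
    have a1 : (m:ℝ) < n + 1 := by linarith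
    have a2 : (n:ℝ) < m + 1 := by linarith
    have b1 : m < n + 1 := by exact_mod_cast a1
    have b2 : n < m + 1 := by exact_mod_cast a2
    omega
  rw [Set.disjoint_left]
  intro z hz1 hz2
  exact h (Prod.ext (key _ _ _ hz1.1 hz2.1) (key _ _ _ hz1.2 hz2.2))

/-- the region outside the disc of radius `1/2` -/
def A0 : Set (ℝ × ℝ) := {z : ℝ × ℝ | 1/4 ≤ z.1^2 + z.2^2}

lemma A0_meas : MeasurableSet A0 :=
  measurableSet_le (by fun_prop) (by fun_prop)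

lemma sum_le_int {g : ℝ} (hg : 0 ≤ g) (hI : IntegrableOn (GG g) A0) (F : Finset (ℤ × ℤ))
    (hF : ∀ p ∈ F, p ≠ 0) :
    ∑ p ∈ F, hh g ((p.1:ℝ)^2 + (p.2:ℝ)^2) ≤ ∫ z in A0, GG g z := by
  have hsub : ∀ p ∈ F, Q p ⊆ A0 := fun p hp z hz => quarter_of_mem (hF p hp) hz
  calc ∑ p ∈ F, hh g ((p.1:ℝ)^2 + (p.2:ℝ)^2) ≤ ∑ p ∈ F, ∫ z in Q p, GG g z :=
        Finset.sum_le_sum (fun p hp => cell_int hg (hF p hp))
    _ = ∫ z in ⋃ p ∈ F, Q p, GG g z := by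
        rw [integral_biUnion_finset]
        · intro p _; exact Q_meas p
        · intro p _ q _ hpq
          exact Q_disj hpq
        · intro p hp
          exact hI.mono_set (hsub p hp)
    _ ≤ ∫ z in A0, GG g z := by
        apply setIntegral_mono_set hI
        · rw [EventuallyLE, ae_restrict_iff' A0_meas]
          refine Eventually.of_forall (fun z hz => ?_)
          have hz' : 1/4 ≤ z.1^2 + z.2^2 := hz
          exact hh_nonneg hg (by linarith)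
        · have hU : (⋃ p ∈ F, Q p) ⊆ A0 := by
            intro z hz
            simp only [mem_iUnion] at hz
            obtain ⟨p, hp, hz⟩ := hz
            exact hsub p hp hz
          exact Eventually.of_forall hU

end Pool.Agent.TH854.GC
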