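import Mathlib
import Pool.Agent.TH854.GC.A4

/-! The one-dimensional integral. -/

open MeasureTheory Set Filter Topology
open Pool.Agent.H383.Gauss

namespace Pool.Agent.TH854.GC

lemma hh_le1 {g t : ℝ} (hg : 0 ≤ g) (ht : 0 < t) :
    hh g t ≤ t ^ (-(3/4):ℝ) - (3/4) * g * t ^ (1/4:ℝ) + (21/32) * g^2 * t ^ (5/4:ℝ) := by
  unfold hh
  rw [Real.mul_rpow ht.le (by positivity)]
  have h1 := q_bound (x := g * t) (by positivity)
  have h2 : 0 ≤ t ^ (-(3/4):ℝ) := by positivity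
  have e1 : t ^ (1/4:ℝ) = t ^ (-(3/4):ℝ) * t := by
    rw [show (1/4:ℝ) = -(3/4) + 1 by norm_num, Real.rpow_add ht, Real.rpow_one]
  have e2 : t ^ (5/4:ℝ) = t ^ (-(3/4):ℝ) * t^2 := by
    rw [show (5/4:ℝ) = -(3/4) + (2:ℕ) by norm_num, Real.rpow_add ht, Real.rpow_natCast]
  rw [e1, e2]
  calc t ^ (-(3/4):ℝ) * (1 + g * t) ^ (-(3/4):ℝ) ≤ t ^ (-(3/4):ℝ) * (1 - 3/4 * (g*t) + 21/32 * (g*t)^2) :=
        mul_le_mul_of_nonneg_left h1 h2
    _ = _ := by ring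

lemma hh_eq2 {g t : ℝ} (hg : 0 < g) (ht : 0 < t) :
    hh g t = g ^ (-(3/4):ℝ) * t ^ (-(3/2):ℝ) * (1 + 1/(g*t)) ^ (-(3/4):ℝ) := by
  unfold hh
  have e : t * (1 + g*t) = g * (t^2) * (1 + 1/(g*t)) := by
    field_simp
    ring
  rw [e, Real.mul_rpow (by positivity) (by positivity), Real.mul_rpow hg.le (by positivity)]
  congr 2
  rw [← Real.rpow_natCast, ← Real.rpow_mul ht.le]
  norm_num

lemma hh_le2 {g t : ℝ} (hg : 0 < g) (ht : 0 < t) :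
    hh g t ≤ g ^ (-(3/4):ℝ) * (t ^ (-(3/2):ℝ) - (3/4) * g⁻¹ * t ^ (-(5/2):ℝ) +
      (21/32) * (g^2)⁻¹ * t ^ (-(7/2):ℝ)) := by
  rw [hh_eq2 hg ht]
  have h1 := q_bound (x := 1 / (g * t)) (by positivity)
  have h2 : 0 ≤ t ^ (-(3/2):ℝ) := by positivity
  have h3 : 0 ≤ g ^ (-(3/4):ℝ) := by positivity
  have e1 : t ^ (-(5/2):ℝ) = t ^ (-(3/2):ℝ) * t⁻¹ := by
    rw [show (-(5/2):ℝ) = -(3/2) + -1 by norm_num, Real.rpow_add ht, Real.rpow_neg_one]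
  have e3 : t ^ (-((2:ℕ):ℝ)) = (t^2)⁻¹ := by rw [Real.rpow_neg ht.le, Real.rpow_natCast]
  have e2 : t ^ (-(7/2):ℝ) = t ^ (-(3/2):ℝ) * (t^2)⁻¹ := by
    rw [show (-(7/2):ℝ) = -(3/2) + -((2:ℕ):ℝ) by norm_num, Real.rpow_add ht, e3]
  rw [e1, e2]
  calc g ^ (-(3/4):ℝ) * t ^ (-(3/2):ℝ) * (1 + 1/(g*t)) ^ (-(3/4):ℝ) ≤
      g ^ (-(3/4):ℝ) * t ^ (-(3/2):ℝ) * (1 - 3/4 * (1/(g*t)) + 21/32 * (1/(g*t))^2) :=
        mul_le_mul_of_nonneg_left h1 (by positivity)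
    _ = _ := by field_simp

lemma hh_le3 {g t : ℝ} (hg : 0 < g) (ht : 0 < t) :
    hh g t ≤ g ^ (-(3/4):ℝ) * t ^ (-(3/2):ℝ) := by
  rw [hh_eq2 hg ht]
  have h1 : (1 + 1/(g*t)) ^ (-(3/4):ℝ) ≤ 1 := by
    apply Real.rpow_le_one_of_one_le_of_nonpos
    · have : 0 < 1/(g*t) := by positivity
      linarith
    · norm_num
  have h2 : 0 ≤ g ^ (-(3/4):ℝ) * t ^ (-(3/2):ℝ) := by positivity
  nlinarith

lemma hh_contOn {g : ℝ} (hg : 0 ≤ g) : ContinuousOn (hh g) (Ioi 0) := by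
  intro t ht
  apply ContinuousAt.continuousWithinAt
  unfold hh
  have ht' : 0 < t := ht
  apply ContinuousAt.rpow_const
  · fun_prop
  · left; positivity

lemma hh_int_tail {g X : ℝ} (hg : 0 < g) (hX : 0 < X) : IntegrableOn (hh g) (Ioi X) := by
  have h1 : IntegrableOn (fun t : ℝ => g ^ (-(3/4):ℝ) * t ^ (-(3/2):ℝ)) (Ioi X) :=
    (integrableOn_Ioi_rpow_of_lt (by norm_num) hX).const_mul _
  refine Integrable.mono' h1 ?_ ?_
  · exact ((hh_contOn hg.le).mono (fun t ht => lt_trans hX ht)).aestronglyMeasurable measurableSet_Ioi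
  · rw [ae_restrict_iff' measurableSet_Ioi]
    refine Eventually.of_forall (fun t ht => ?_)
    have ht' : 0 < t := lt_trans hX ht
    rw [Real.norm_eq_abs, abs_of_nonneg (hh_nonneg hg.le ht'.le)]
    exact hh_le3 hg ht'

lemma tail_bound {y : ℝ} (hy : 0 < y) :
    ∫ t in Ioi (y^4), hh ((y^4)⁻¹) t ≤ (141/80) * y := by
  have hX : 0 < y^4 := by positivity
  have hg : 0 < (y^4)⁻¹ := by positivity
  have i1 := integrableOn_Ioi_rpow_of_lt (a := (-(3/2):ℝ)) (by norm_num) hX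
  have i2 := integrableOn_Ioi_rpow_of_lt (a := (-(5/2):ℝ)) (by norm_num) hX
  have i3 := integrableOn_Ioi_rpow_of_lt (a := (-(7/2):ℝ)) (by norm_num) hX
  have hI : IntegrableOn (fun t : ℝ => ((y^4)⁻¹) ^ (-(3/4):ℝ) * (t ^ (-(3/2):ℝ) - (3/4) * ((y^4)⁻¹)⁻¹ * t ^ (-(5/2):ℝ) +
      (21/32) * (((y^4)⁻¹)^2)⁻¹ * t ^ (-(7/2):ℝ))) (Ioi (y^4)) :=
    ((i1.sub (i2.const_mul _)).add (i3.const_mul _)).const_mul _
  have h1 : ∫ t in Ioi (y^4), hh ((y^4)⁻¹) t ≤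
      ∫ t in Ioi (y^4), ((y^4)⁻¹) ^ (-(3/4):ℝ) * (t ^ (-(3/2):ℝ) - (3/4) * ((y^4)⁻¹)⁻¹ * t ^ (-(5/2):ℝ) +
      (21/32) * (((y^4)⁻¹)^2)⁻¹ * t ^ (-(7/2):ℝ)) := by
    apply setIntegral_mono_on (hh_int_tail hg hX) hI measurableSet_Ioi
    intro t ht
    exact hh_le2 hg (lt_trans hX ht)
  refine h1.trans (le_of_eq ?_)
  rw [integral_const_mul, integral_add, integral_sub, integral_const_mul, integral_const_mul,
    integral_Ioi_rpow_of_lt (by norm_num) hX, integral_Ioi_rpow_of_lt (by norm_num) hX,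
    integral_Ioi_rpow_of_lt (by norm_num) hX]
  · have p1 : ((y^4)⁻¹) ^ (-(3/4):ℝ) = y^3 := by
      rw [Real.inv_rpow hX.le, Real.rpow_neg hX.le, inv_inv, ← Real.rpow_natCast, ← Real.rpow_mul hy.le,
        ← Real.rpow_natCast]
      norm_num
    have p2 : (y^4) ^ (-(3/2) + 1 : ℝ) = (y^2)⁻¹ := by
      rw [← Real.rpow_natCast, ← Real.rpow_mul hy.le, ← Real.rpow_natCast, ← Real.rpow_neg hy.le]
      norm_num
    have p3 : (y^4) ^ (-(5/2) + 1 : ℝ) = (y^6)⁻¹ := by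
      rw [← Real.rpow_natCast, ← Real.rpow_mul hy.le, ← Real.rpow_natCast, ← Real.rpow_neg hy.le]
      norm_num
    have p4 : (y^4) ^ (-(7/2) + 1 : ℝ) = (y^10)⁻¹ := by
      rw [← Real.rpow_natCast, ← Real.rpow_mul hy.le, ← Real.rpow_natCast, ← Real.rpow_neg hy.le]
      norm_num
    rw [p1, p2, p3, p4]
    field_simp
    norm_num
  · exact i1
  · exact i2.const_mul _
  · exact i1.sub (i2.const_mul _)
  · exact i3.const_mul _

lemma head_bound {y : ℝ} (hy : 1 ≤ y) :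
    ∫ t in (1/12:ℝ)..(y^4), hh ((y^4)⁻¹) t ≤
      (443/120) * y - 4 * (1/12:ℝ)^(1/4:ℝ) + (3/5) * (y^4)⁻¹ * (1/12:ℝ)^(5/4:ℝ) := by
  have hy0 : 0 < y := by linarith
  have hX : 0 < y^4 := by positivity
  have hX1 : 1 ≤ y^4 := one_le_pow₀ hy
  have hg : 0 < (y^4)⁻¹ := by positivity
  set g : ℝ := (y^4)⁻¹ with hgdef
  have hle : (1/12:ℝ) ≤ y^4 := by linarith
  have hsub : ∀ t ∈ Icc (1/12:ℝ) (y^4), 0 < t := fun t ht => by linarith [ht.1]
  have cont : ∀ a : ℝ, ContinuousOn (fun t : ℝ => t ^ a) (Icc (1/12:ℝ) (y^4)) := by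
    intro a t ht
    exact (Real.continuousAt_rpow_const _ _ (Or.inl (hsub t ht).ne')).continuousWithinAt
  have ii : ∀ a : ℝ, IntervalIntegrable (fun t : ℝ => t ^ a) volume (1/12:ℝ) (y^4) := by
    intro a
    apply ContinuousOn.intervalIntegrable
    rw [uIcc_of_le hle]
    exact cont a
  have h1 : ∫ t in (1/12:ℝ)..(y^4), hh g t ≤
      ∫ t in (1/12:ℝ)..(y^4), (t ^ (-(3/4):ℝ) - (3/4) * g * t ^ (1/4:ℝ) + (21/32) * g^2 * t ^ (5/4:ℝ)) := by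
    apply intervalIntegral.integral_mono_on hle
    · apply ContinuousOn.intervalIntegrable
      rw [uIcc_of_le hle]
      exact (hh_contOn hg.le).mono (fun t ht => hsub t ht)
    · exact ((ii _).sub ((ii _).const_mul _)).add ((ii _).const_mul _)
    · intro t ht
      exact hh_le1 hg.le (hsub t ht)
  refine h1.trans ?_
  rw [intervalIntegral.integral_add, intervalIntegral.integral_sub, intervalIntegral.integral_const_mul,
    intervalIntegral.integral_const_mul, integral_rpow (Or.inl (by norm_num)),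
    integral_rpow (Or.inl (by norm_num)), integral_rpow (Or.inl (by norm_num))]
  · have p2 : (y^4) ^ (-(3/4) + 1 : ℝ) = y := by
      rw [← Real.rpow_natCast, ← Real.rpow_mul hy0.le]
      norm_num
    have p3 : (y^4) ^ (1/4 + 1 : ℝ) = y^5 := by
      rw [← Real.rpow_natCast, ← Real.rpow_mul hy0.le, ← Real.rpow_natCast]
      norm_num
    have p4 : (y^4) ^ (5/4 + 1 : ℝ) = y^9 := by
      rw [← Real.rpow_natCast, ← Real.rpow_mul hy0.le, ← Real.rpow_natCast]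
      norm_num
    have q1 : (1/12:ℝ) ^ (-(3/4) + 1 : ℝ) = (1/12:ℝ)^(1/4:ℝ) := by norm_num
    have q2 : (1/12:ℝ) ^ (1/4 + 1 : ℝ) = (1/12:ℝ)^(5/4:ℝ) := by norm_num
    have q3 : 0 ≤ (1/12:ℝ) ^ (5/4 + 1 : ℝ) := by positivity
    rw [p2, p3, p4, q1, q2]
    set b := (1/12:ℝ) ^ (5/4 + 1 : ℝ)
    set a1 := (1/12:ℝ)^(1/4:ℝ)
    set a2 := (1/12:ℝ)^(5/4:ℝ)
    have e1 : g * y^5 = y := by rw [hgdef]; field_simp
    have e2 : g^2 * y^9 = y := by rw [hgdef]; field_simp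
    have e3 : 0 ≤ g^2 * b := by positivity
    have : (y - a1) / (-(3/4) + 1) - 3/4 * g * ((y^5 - a2) / (1/4 + 1)) + 21/32 * g^2 * ((y^9 - b) / (5/4 + 1))
        = 4 * (y - a1) - 3/5 * (g * y^5 - g * a2) + 7/24 * (g^2 * y^9 - g^2 * b) := by ring
    rw [this, e1, e2]
    linarith
  · exact ii _
  · exact (ii _).const_mul _
  · exact (ii _).sub ((ii _).const_mul _)
  · exact (ii _).const_mul _

lemma hh_int {y : ℝ} (hy : 1 ≤ y) : IntegrableOn (hh ((y^4)⁻¹)) (Ioi (1/12)) := by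
  have hy0 : 0 < y := by linarith
  exact hh_int_tail (by positivity) (by norm_num)

lemma a14 : (537/1000:ℝ) ≤ (1/12:ℝ)^(1/4:ℝ) := by
  have h : ((537/1000:ℝ)^4)^(1/4:ℝ) ≤ (1/12:ℝ)^(1/4:ℝ) := by
    apply Real.rpow_le_rpow (by norm_num) (by norm_num) (by norm_num)
  rwa [← Real.rpow_natCast, ← Real.rpow_mul (by norm_num), show ((4:ℕ):ℝ) * (1/4) = 1 by norm_num,
    Real.rpow_one] at h

lemma a54 : (1/12:ℝ)^(5/4:ℝ) ≤ 45/1000 := by
  have h : (1/12:ℝ)^(5/4:ℝ) ≤ ((45/1000:ℝ)^4)^(1/4:ℝ) := by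
    rw [show (5/4:ℝ) = ((5:ℕ):ℝ) * (1/4) by norm_num, Real.rpow_mul (by norm_num), Real.rpow_natCast]
    apply Real.rpow_le_rpow (by norm_num) (by norm_num) (by norm_num)
  rwa [← Real.rpow_natCast (45/1000:ℝ), ← Real.rpow_mul (by norm_num), show ((4:ℕ):ℝ) * (1/4) = 1 by norm_num,
    Real.rpow_one] at h

theorem hh_integral {y : ℝ} (hy : 1 ≤ y) :
    ∫ t in Ioi (1/12:ℝ), hh ((y^4)⁻¹) t ≤ (1309/240) * y - 2148/1000 + (27/1000) * (y^4)⁻¹ := by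
  have hy0 : 0 < y := by linarith
  have hX1 : 1 ≤ y^4 := one_le_pow₀ hy
  have hle : (1/12:ℝ) ≤ y^4 := by linarith
  have h := hh_int hy
  have e : ∫ t in Ioi (1/12:ℝ), hh ((y^4)⁻¹) t =
      (∫ t in (1/12:ℝ)..(y^4), hh ((y^4)⁻¹) t) + ∫ t in Ioi (y^4), hh ((y^4)⁻¹) t := by
    rw [intervalIntegral.integral_of_le hle, ← setIntegral_union]
    · rw [Ioc_union_Ioi_eq_Ioi hle]
    · rw [Set.disjoint_left]
      intro t ht1 ht2
      exact absurd ht1.2 (not_le.mpr ht2)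
    · exact measurableSet_Ioi
    · exact h.mono_set (fun t ht => ht.1)
    · exact h.mono_set (fun t ht => lt_of_le_of_lt hle ht)
  rw [e]
  have h1 := head_bound hy
  have h2 := tail_bound hy0
  have h3 := a14
  have h4 := a54
  have h5 : 0 < (y^4)⁻¹ := by positivity
  nlinarith

end Pool.Agent.TH854.GC
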