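import Mathlib
import Pool.Agent.TH854.GC.A5

/-! Polar coordinates. -/

open MeasureTheory Set Filter Topology
open Pool.Agent.H383.Gauss

namespace Pool.Agent.TH854.GC

/-- radial form of the integrand -/
noncomputable def fr (g ρ : ℝ) : ℝ := (Ici (1/2:ℝ)).indicator (fun ρ => hh g (ρ^2 - 1/6)) ρ

lemma image_eq : (fun y : ℝ => y^2 - 1/6) '' (Ioi (1/2)) = Ioi (1/12) := by
  ext t
  constructor
  · rintro ⟨y, hy, rfl⟩
    have hy' : 1/2 < y := hy
    show 1/12 < y^2 - 1/6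
    nlinarith
  · intro ht
    have ht' : 1/12 < t := ht
    refine ⟨√(t + 1/6), ?_, ?_⟩
    · show 1/2 < √(t + 1/6)
      apply Real.lt_sqrt_of_sq_lt
      linarith
    · show √(t + 1/6)^2 - 1/6 = t
      rw [Real.sq_sqrt (by linarith)]
      ring

lemma inj_sq : InjOn (fun y : ℝ => y^2 - 1/6) (Ioi (1/2)) := by
  intro a ha b hb hab
  have ha' : 1/2 < a := ha
  have hb' : 1/2 < b := hb
  have h : a^2 = b^2 := by
    have : a^2 - 1/6 = b^2 - 1/6 := hab
    linarith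
  exact (pow_left_inj₀ (by linarith) (by linarith) (by norm_num)).mp h

lemma hd_sq (y : ℝ) : HasDerivWithinAt (fun y : ℝ => y^2 - 1/6) (2*y) (Ioi (1/2)) y := by
  apply HasDerivAt.hasDerivWithinAt
  refine HasDerivAt.congr_deriv ((hasDerivAt_pow 2 y).sub_const (1/6)) ?_
  norm_num

lemma int_sq (g : ℝ) : ∫ t in Ioi (1/12:ℝ), hh g t = 2 * ∫ y in Ioi (1/2:ℝ), y * hh g (y^2 - 1/6) := by
  have h := integral_image_eq_integral_abs_deriv_smul (s := Ioi (1/2:ℝ)) measurableSet_Ioi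
    (fun y _ => hd_sq y) inj_sq (hh g)
  rw [image_eq] at h
  rw [h, ← integral_const_mul]
  apply setIntegral_congr_fun measurableSet_Ioi
  intro y hy
  have hy' : 1/2 < y := hy
  simp only [smul_eq_mul]
  rw [abs_of_pos (by linarith)]
  ring

lemma intOn_sq {g : ℝ} (h : IntegrableOn (hh g) (Ioi (1/12))) :
    IntegrableOn (fun y : ℝ => y * hh g (y^2 - 1/6)) (Ioi (1/2)) := by
  have h1 := (integrableOn_image_iff_integrableOn_abs_deriv_smul (s := Ioi (1/2:ℝ)) measurableSet_Ioi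
    (fun y _ => hd_sq y) inj_sq (hh g))
  rw [image_eq] at h1
  have h2 : IntegrableOn (fun x : ℝ => 1/2 * (|2*x| • hh g (x^2 - 1/6))) (Ioi (1/2)) :=
    (h1.mp h).const_mul (1/2)
  refine IntegrableOn.congr_fun h2 ?_ measurableSet_Ioi
  intro y hy
  have hy' : 1/2 < y := hy
  simp only [smul_eq_mul]
  rw [abs_of_pos (by linarith)]
  ring

lemma ind_eq (g : ℝ) : (fun y : ℝ => y ^ (2-1) • fr g y) =
    (Ici (1/2:ℝ)).indicator (fun y => y * hh g (y^2 - 1/6)) := by
  funext y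
  unfold fr
  by_cases hy : y ∈ Ici (1/2:ℝ)
  · rw [indicator_of_mem hy, indicator_of_mem hy]
    simp
  · rw [indicator_of_notMem hy, indicator_of_notMem hy]
    simp

lemma fr_intOn {g : ℝ} (h : IntegrableOn (hh g) (Ioi (1/12))) :
    IntegrableOn (fun y : ℝ => y ^ (2-1) • fr g y) (Ioi 0) := by
  rw [ind_eq]
  apply Integrable.integrableOn
  rw [integrable_indicator_iff measurableSet_Ici, integrableOn_Ici_iff_integrableOn_Ioi]
  exact intOn_sq h

lemma fr_int (g : ℝ) :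
    ∫ y in Ioi (0:ℝ), y ^ (2-1) • fr g y = ∫ y in Ioi (1/2:ℝ), y * hh g (y^2 - 1/6) := by
  rw [ind_eq, setIntegral_indicator measurableSet_Ici, ← integral_Ici_eq_integral_Ioi]
  congr 2
  ext y
  simp only [mem_inter_iff, mem_Ioi, mem_Ici]
  constructor
  · rintro ⟨_, h⟩; exact h
  · intro h; exact ⟨by linarith, h⟩

lemma norm_fr (g : ℝ) (p : ℝ × ℝ) :
    fr g ‖(p.1:ℂ) + (p.2:ℂ) * Complex.I‖ = A0.indicator (GG g) p := by
  have hn : ‖(p.1:ℂ) + (p.2:ℂ) * Complex.I‖ = √(p.1^2 + p.2^2) := by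
    rw [Complex.norm_add_mul_I]
  have hn2 : ‖(p.1:ℂ) + (p.2:ℂ) * Complex.I‖^2 = p.1^2 + p.2^2 := by
    rw [hn, Real.sq_sqrt (by positivity)]
  unfold fr
  by_cases h : p ∈ A0
  · have h' : 1/4 ≤ p.1^2 + p.2^2 := h
    rw [indicator_of_mem h, indicator_of_mem, hn2]
    · rfl
    · show 1/2 ≤ ‖(p.1:ℂ) + (p.2:ℂ) * Complex.I‖
      rw [hn]
      apply Real.le_sqrt_of_sq_le
      linarith
  · have h' : p.1^2 + p.2^2 < 1/4 := lt_of_not_ge h
    rw [indicator_of_notMem h, indicator_of_notMem]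
    intro hc
    have hc' : 1/2 ≤ ‖(p.1:ℂ) + (p.2:ℂ) * Complex.I‖ := hc
    nlinarith [hn2]

lemma fin2 : Module.finrank ℝ ℂ = 2 := Complex.finrank_real_complex

lemma GG_int {g : ℝ} (h : IntegrableOn (hh g) (Ioi (1/12))) : IntegrableOn (GG g) A0 := by
  have h1 : Integrable (fun z : ℂ => fr g ‖z‖) := by
    rw [integrable_fun_norm_addHaar (μ := (volume : Measure ℂ)) (f := fr g), fin2]
    exact fr_intOn h
  have h2 := (Complex.volume_preserving_equiv_real_prod.symm).integrable_comp_emb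
        (Complex.measurableEquivRealProd.symm.measurableEmbedding) (g := fun z : ℂ => fr g ‖z‖)
  have h3 := h2.mpr h1
  rw [← integrable_indicator_iff A0_meas]
  refine h3.congr (Eventually.of_forall (fun p => ?_))
  show fr g ‖Complex.measurableEquivRealProd.symm p‖ = _
  rw [symm_eq, norm_fr]

lemma GG_integral (g : ℝ) : ∫ z in A0, GG g z = Real.pi * ∫ t in Ioi (1/12:ℝ), hh g t := by
  rw [← integral_indicator A0_meas]
  have h1 := int_complex_eq (fun z : ℂ => fr g ‖z‖)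
  simp_rw [norm_fr] at h1
  rw [← h1, integral_fun_norm_addHaar (μ := (volume : Measure ℂ)) (f := fr g), fin2, fr_int, int_sq]
  have h2 : (volume : Measure ℂ).real (Metric.ball 0 1) = Real.pi := by
    rw [Measure.real, Complex.volume_ball]
    simp
  rw [h2]
  simp only [nsmul_eq_mul, smul_eq_mul]
  push_cast
  ring

theorem lattice_sum {y : ℝ} (hy : 1 ≤ y) (F : Finset (ℤ × ℤ)) (hF : ∀ p ∈ F, p ≠ 0) :
    ∑ p ∈ F, hh ((y^4)⁻¹) ((p.1:ℝ)^2 + (p.2:ℝ)^2) ≤
      Real.pi * ((1309/240) * y - 2148/1000 + (27/1000) * (y^4)⁻¹) := by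
  have hg : 0 ≤ (y^4)⁻¹ := by positivity
  refine (sum_le_int hg (GG_int (hh_int hy)) F hF).trans ?_
  rw [GG_integral]
  exact mul_le_mul_of_nonneg_left (hh_integral hy) Real.pi_pos.le

end Pool.Agent.TH854.GC
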