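import Mathlib
import Pool.Agent.TH854.GC.A6

/-! Poisson summation for discs with arbitrary centres. -/

open MeasureTheory Set Filter Topology
open scoped FourierTransform RealInnerProductSpace Convolution
open Pool.Agent.H383.Gauss

namespace Pool.Agent.TH854.GC

/-- the point of the plane -/
noncomputable def pt (p : ℤ × ℤ) : ℂ := ((p.1:ℝ):ℂ) + ((p.2:ℝ):ℂ) * Complex.I

lemma pt_norm (p : ℤ × ℤ) : ‖pt p‖ = nz p := nz_norm p

lemma norm_four_shift (f : ℂ → ℂ) (c ξ : ℂ) :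
    𝓕 (fun z => f (z - c)) ξ = Real.fourierChar (-⟪c, ξ⟫) • 𝓕 f ξ := by
  rw [Real.fourier_eq, Real.fourier_eq]
  have h := integral_add_right_eq_self (μ := (volume : Measure ℂ))
    (fun v : ℂ => Real.fourierChar (-⟪v, ξ⟫) • f (v - c)) c
  rw [← h]
  simp only [Circle.smul_def]
  rw [← integral_smul]
  congr 1
  funext v
  rw [add_sub_cancel_right, inner_add_left, neg_add, AddChar.map_add_eq_mul, Circle.coe_mul]
  simp only [smul_eq_mul]
  ring

/-- the absolutely convergent dual sum -/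
noncomputable def TT (R δ : ℝ) : ℝ := ∑' p : ℤ × ℤ, if p = 0 then 0 else |J (R * nz p)| * |J (δ * nz p)|

lemma TT_summable {R δ : ℝ} (hR : 0 < R) (hδ : 0 < δ) :
    Summable (fun p : ℤ × ℤ => if p = 0 then 0 else |J (R * nz p)| * |J (δ * nz p)|) := by
  have h := (Es_summable hR hδ).norm
  refine h.congr (fun p => ?_)
  by_cases hp : p = 0
  · simp [hp]
  · rw [if_neg hp, if_neg hp, Real.norm_eq_abs, abs_mul]

lemma four_shift_norm {R δ : ℝ} (hR : 0 < R) (hδ : 0 < δ) (c : ℂ) (p : ℤ × ℤ) :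
    ‖𝓕 (fun z => fs R δ (z - c)) (pt p)‖ = R^2 * δ^2 * (|J (R * nz p)| * |J (δ * nz p)|) := by
  rw [norm_four_shift, Circle.norm_smul, four_fs hR hδ, pt_norm, Complex.norm_real, Real.norm_eq_abs,
    abs_mul, abs_mul, abs_mul, abs_of_nonneg (sq_nonneg R), abs_of_nonneg (sq_nonneg δ)]
  ring

lemma four_shift_zero {R δ : ℝ} (hR : 0 < R) (hδ : 0 < δ) (c : ℂ) :
    𝓕 (fun z => fs R δ (z - c)) (pt 0) = ((R^2 * δ^2 * Real.pi^2 : ℝ) : ℂ) := by
  have h0 : pt 0 = 0 := by simp [pt]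
  rw [norm_four_shift, four_fs hR hδ, h0, norm_zero, mul_zero, mul_zero, J_zero, inner_zero_right, neg_zero,
    AddChar.map_zero_eq_one, one_smul]
  push_cast
  ring

lemma fin_supp {R δ : ℝ} (c : ℂ) :
    ∃ S : Finset (ℤ × ℤ), ∀ p : ℤ × ℤ, p ∉ S → R + δ < ‖pt p - c‖ := by
  refine ⟨ballS |R + δ + ‖c‖|, fun p hp => ?_⟩
  rw [mem_ballS_nz (abs_nonneg _), not_le] at hp
  have h1 := (le_abs_self (R + δ + ‖c‖)).trans_lt hp
  have h2 : ‖pt p‖ ≤ ‖pt p - c‖ + ‖c‖ := by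
    have := norm_add_le (pt p - c) c
    simpa using this
  rw [pt_norm] at h2
  linarith

lemma fs_shift_summable {R δ : ℝ} (c : ℂ) : Summable (fun p : ℤ × ℤ => fs R δ (pt p - c)) := by
  obtain ⟨S, hS⟩ := fin_supp (R := R) (δ := δ) c
  apply summable_of_ne_finset_zero (s := S)
  intro p hp
  exact fs_zero (hS p hp)

theorem poisson_shift {R δ : ℝ} (hR : 0 < R) (hδ : 0 < δ) (c : ℂ) :
    |(∑' p : ℤ × ℤ, (fs R δ (pt p - c)).re) - R^2 * δ^2 * Real.pi^2| ≤ R^2 * δ^2 * TT R δ := by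
  set f : ℂ → ℂ := fun z => fs R δ (z - c) with hf
  have hcont : Continuous f := (fs_cont R δ).comp (by fun_prop)
  have hB : ∀ z, R + δ + ‖c‖ < ‖z‖ → f z = 0 := by
    intro z hz
    apply fs_zero
    have : ‖z‖ ≤ ‖z - c‖ + ‖c‖ := by
      have := norm_add_le (z - c) c
      simpa using this
    linarith
  have hTT := TT_summable hR hδ
  have hnorm : ∀ p : ℤ × ℤ, ‖𝓕 f (pt p) - (if p = 0 then ((R^2 * δ^2 * Real.pi^2 : ℝ) : ℂ) else 0)‖ ≤
      R^2 * δ^2 * (if p = 0 then 0 else |J (R * nz p)| * |J (δ * nz p)|) := by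
    intro p
    by_cases hp : p = 0
    · rw [if_pos hp, if_pos hp, hp, four_shift_zero hR hδ]
      simp
    · rw [if_neg hp, if_neg hp, sub_zero, four_shift_norm hR hδ]
  have hs1 : Summable (fun p : ℤ × ℤ => 𝓕 f (pt p) - (if p = 0 then ((R^2 * δ^2 * Real.pi^2 : ℝ) : ℂ) else 0)) :=
    Summable.of_norm_bounded (hTT.mul_left _) hnorm
  have hs0 : HasSum (fun p : ℤ × ℤ => if p = 0 then ((R^2 * δ^2 * Real.pi^2 : ℝ) : ℂ) else 0)
      ((R^2 * δ^2 * Real.pi^2 : ℝ) : ℂ) := hasSum_ite_eq 0 _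
  have hs : Summable (fun p : ℤ × ℤ => 𝓕 f (pt p)) := by
    have := hs1.add hs0.summable
    simpa using this
  have hp := poisson2 hcont (B := R + δ + ‖c‖) hB hs
  have hp' : ∑' p : ℤ × ℤ, fs R δ (pt p - c) = ∑' p : ℤ × ℤ, 𝓕 f (pt p) := hp
  have hfs := fs_shift_summable (R := R) (δ := δ) c
  have h3 := congrArg Complex.re hp'
  rw [Complex.re_tsum hfs] at h3
  have h4 : (∑' p : ℤ × ℤ, 𝓕 f (pt p)) - ((R^2 * δ^2 * Real.pi^2 : ℝ) : ℂ) =
      ∑' p : ℤ × ℤ, (𝓕 f (pt p) - (if p = 0 then ((R^2 * δ^2 * Real.pi^2 : ℝ) : ℂ) else 0)) := by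
    rw [hs.tsum_sub hs0.summable, hs0.tsum_eq]
  have h5 : ‖(∑' p : ℤ × ℤ, 𝓕 f (pt p)) - ((R^2 * δ^2 * Real.pi^2 : ℝ) : ℂ)‖ ≤ R^2 * δ^2 * TT R δ := by
    rw [h4]
    refine (tsum_of_norm_bounded (hTT.mul_left (R^2*δ^2)).hasSum hnorm).trans (le_of_eq ?_)
    rw [tsum_mul_left]
    rfl
  rw [h3]
  refine le_trans ?_ h5
  have h6 := Complex.abs_re_le_norm ((∑' p : ℤ × ℤ, 𝓕 f (pt p)) - ((R^2 * δ^2 * Real.pi^2 : ℝ) : ℂ))
  rw [Complex.sub_re, Complex.ofReal_re] at h6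
  exact h6

/-- the number of lattice points in the closed disc with centre `(a, b)` and radius `R` -/
noncomputable def NN (a b R : ℝ) : ℝ :=
  (Nat.card {p : ℤ × ℤ // ((p.1:ℝ) - a)^2 + ((p.2:ℝ) - b)^2 ≤ R^2} : ℝ)

lemma norm_pt_sub (a b : ℝ) (p : ℤ × ℤ) :
    ‖pt p - ((a:ℂ) + (b:ℂ) * Complex.I)‖ = √(((p.1:ℝ) - a)^2 + ((p.2:ℝ) - b)^2) := by
  rw [← Complex.norm_add_mul_I]
  congr 1
  unfold pt
  push_cast
  ring

lemma exists_S (a b : ℝ) {R : ℝ} (hR : 0 ≤ R) :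
    ∃ S : Finset (ℤ × ℤ), NN a b R = (S.card : ℝ) ∧
      ∀ p, p ∈ S ↔ ‖pt p - ((a:ℂ) + (b:ℂ) * Complex.I)‖ ≤ R := by
  classical
  obtain ⟨S, hS⟩ := fin_supp (R := R) (δ := 0) ((a:ℂ) + (b:ℂ) * Complex.I)
  refine ⟨S.filter (fun p => ‖pt p - ((a:ℂ) + (b:ℂ) * Complex.I)‖ ≤ R), ?_, ?_⟩
  · unfold NN
    congr 1
    apply Nat.subtype_card
    intro p
    rw [Finset.mem_filter, norm_pt_sub, Real.sqrt_le_left hR]
    constructor
    · rintro ⟨_, h⟩; exact h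
    · intro h
      refine ⟨?_, h⟩
      by_contra hp
      have := hS p hp
      rw [norm_pt_sub, add_zero] at this
      have h2 : √(((p.1:ℝ) - a)^2 + ((p.2:ℝ) - b)^2) ≤ R := by
        rw [Real.sqrt_le_left hR]; exact h
      linarith
  · intro p
    rw [Finset.mem_filter]
    constructor
    · rintro ⟨_, h⟩; exact h
    · intro h
      refine ⟨?_, h⟩
      by_contra hp
      have := hS p hp
      rw [add_zero] at this
      linarith

lemma re_summable {R δ : ℝ} (c : ℂ) : Summable (fun p : ℤ × ℤ => (fs R δ (pt p - c)).re) := by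
  obtain ⟨S, hS⟩ := fin_supp (R := R) (δ := δ) c
  apply summable_of_ne_finset_zero (s := S)
  intro p hp
  rw [fs_zero (hS p hp), Complex.zero_re]

theorem NN_le (a b : ℝ) {R δ : ℝ} (hR : 0 ≤ R) (hδ : 0 < δ) :
    NN a b R ≤ Real.pi * (R + δ)^2 + (R + δ)^2 / Real.pi * TT (R + δ) δ := by
  obtain ⟨S, hcard, hmem⟩ := exists_S a b hR
  set c : ℂ := (a:ℂ) + (b:ℂ) * Complex.I
  have h1 := poisson_shift (R := R + δ) (by linarith) hδ c
  have h2 : NN a b R * (Real.pi * δ^2) ≤ ∑' p : ℤ × ℤ, (fs (R + δ) δ (pt p - c)).re := by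
    rw [hcard]
    have : (S.card : ℝ) * (Real.pi * δ^2) = ∑ p ∈ S, (fs (R + δ) δ (pt p - c)).re := by
      rw [← nsmul_eq_mul, ← Finset.sum_const]
      apply Finset.sum_congr rfl
      intro p hp
      rw [fs_one hδ, Complex.ofReal_re]
      have := (hmem p).mp hp
      linarith
    rw [this]
    apply Summable.sum_le_tsum _ _ (re_summable c)
    intro p _
    exact (fs_real hδ _).1
  have h3 := (abs_le.mp h1).2
  have hp : 0 < Real.pi * δ^2 := by positivity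
  rw [← mul_le_mul_iff_left₀ hp]
  have h4 : (Real.pi * (R + δ)^2 + (R + δ)^2 / Real.pi * TT (R + δ) δ) * (Real.pi * δ^2) =
      (R + δ)^2 * δ^2 * Real.pi^2 + (R + δ)^2 * δ^2 * TT (R + δ) δ := by
    have := Real.pi_pos.ne'
    field_simp
  rw [h4]
  linarith

theorem le_NN (a b : ℝ) {R δ : ℝ} (hδ : 0 < δ) (h : δ < R) :
    Real.pi * (R - δ)^2 - (R - δ)^2 / Real.pi * TT (R - δ) δ ≤ NN a b R := by
  obtain ⟨S, hcard, hmem⟩ := exists_S a b (R := R) (by linarith)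
  set c : ℂ := (a:ℂ) + (b:ℂ) * Complex.I
  have h1 := poisson_shift (R := R - δ) (by linarith) hδ c
  have h2 : ∑' p : ℤ × ℤ, (fs (R - δ) δ (pt p - c)).re ≤ NN a b R * (Real.pi * δ^2) := by
    rw [tsum_eq_sum (s := S)]
    · rw [hcard, ← nsmul_eq_mul, ← Finset.sum_const]
      apply Finset.sum_le_sum
      intro p _
      exact (fs_real hδ _).2
    · intro p hp
      rw [hmem, not_le] at hp
      rw [fs_zero, Complex.zero_re]
      linarith
  have h3 := (abs_le.mp h1).1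
  have hp : 0 < Real.pi * δ^2 := by positivity
  rw [← mul_le_mul_iff_left₀ hp]
  have h4 : (Real.pi * (R - δ)^2 - (R - δ)^2 / Real.pi * TT (R - δ) δ) * (Real.pi * δ^2) =
      (R - δ)^2 * δ^2 * Real.pi^2 - (R - δ)^2 * δ^2 * TT (R - δ) δ := by
    have := Real.pi_pos.ne'
    field_simp
  rw [h4]
  linarith

end Pool.Agent.TH854.GC
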