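import Mathlib
import Pool.Agent.TH854.GC.B1

/-! The final estimate. -/

open MeasureTheory Set Filter Topology
open Pool.Agent.H383.Gauss

namespace Pool.Agent.TH854.GC

lemma term_bound {r δ y : ℝ} (hr : 0 < r) (hδ : 0 < δ) (hg : 13/2 * δ^2 = (y^4)⁻¹) {p : ℤ × ℤ}
    (hp : p ≠ 0) :
    |J (r * nz p)| * |J (δ * nz p)| ≤
      r ^ (-(3/2):ℝ) * (1 + 3 / (8 * Real.pi * r)) * hh ((y^4)⁻¹) ((p.1:ℝ)^2 + (p.2:ℝ)^2) := by
  have hk := nz_ge_one hp
  set k := nz p with hkdef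
  have hk0 : 0 < k := by linarith
  have hk2 : k^2 = (p.1:ℝ)^2 + (p.2:ℝ)^2 := by
    rw [hkdef]; unfold nz; exact Real.sq_sqrt (by positivity)
  have h1 : |J (r * k)| ≤ (1 / Real.pi) * (r * k) ^ (-(3/2):ℝ) * (1 + 3 / (8 * Real.pi * r)) := by
    refine (J_abs (by positivity)).trans ?_
    apply mul_le_mul_of_nonneg_left _ (by positivity)
    have : 3 / (8 * Real.pi * (r * k)) ≤ 3 / (8 * Real.pi * r) := by
      apply div_le_div_of_nonneg_left (by norm_num) (by positivity)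
      have : r ≤ r * k := by nlinarith
      have h8 : 0 < 8 * Real.pi := by positivity
      nlinarith
    linarith
  have h2 : |J (δ * k)| ≤ Real.pi * (1 + 13/2 * (δ * k)^2) ^ (-(3/4):ℝ) := J_le_all (by positivity)
  rw [← hk2]
  have e1 : hh ((y^4)⁻¹) (k^2) = k ^ (-(3/2):ℝ) * (1 + 13/2 * (δ * k)^2) ^ (-(3/4):ℝ) := by
    unfold hh
    rw [← hg, Real.mul_rpow (by positivity) (by positivity)]
    congr 1
    · rw [← Real.rpow_natCast, ← Real.rpow_mul hk0.le]; norm_num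
    · congr 1; ring
  rw [e1]
  have hnn : 0 ≤ (1 + 13/2 * (δ * k)^2) ^ (-(3/4):ℝ) := by positivity
  calc |J (r * k)| * |J (δ * k)| ≤ ((1 / Real.pi) * (r * k) ^ (-(3/2):ℝ) * (1 + 3 / (8 * Real.pi * r))) *
        (Real.pi * (1 + 13/2 * (δ * k)^2) ^ (-(3/4):ℝ)) := by
          apply mul_le_mul h1 h2 (abs_nonneg _) (by positivity)
    _ = _ := by
      rw [Real.mul_rpow hr.le hk0.le]
      have := Real.pi_pos.ne'
      field_simp

lemma TT_bound {r δ y : ℝ} (hy : 1 ≤ y) (hr : 0 < r) (hδ : 0 < δ) (hg : 13/2 * δ^2 = (y^4)⁻¹) :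
    TT r δ ≤ r ^ (-(3/2):ℝ) * (1 + 3 / (8 * Real.pi * r)) *
      (Real.pi * ((1309/240) * y - 2148/1000 + (27/1000) * (y^4)⁻¹)) := by
  unfold TT
  have hpos : 0 ≤ r ^ (-(3/2):ℝ) * (1 + 3 / (8 * Real.pi * r)) := by positivity
  apply Summable.tsum_le_of_sum_le (TT_summable hr hδ)
  intro F
  have h1 : ∑ p ∈ F, (if p = 0 then 0 else |J (r * nz p)| * |J (δ * nz p)|) =
      ∑ p ∈ F.filter (fun p => p ≠ 0), |J (r * nz p)| * |J (δ * nz p)| := by
    rw [Finset.sum_filter]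
    apply Finset.sum_congr rfl
    intro p _
    by_cases hp : p = 0
    · simp [hp]
    · simp [hp]
  rw [h1]
  calc ∑ p ∈ F.filter (fun p => p ≠ 0), |J (r * nz p)| * |J (δ * nz p)|
      ≤ ∑ p ∈ F.filter (fun p => p ≠ 0), r ^ (-(3/2):ℝ) * (1 + 3 / (8 * Real.pi * r)) *
          hh ((y^4)⁻¹) ((p.1:ℝ)^2 + (p.2:ℝ)^2) := by
        apply Finset.sum_le_sum
        intro p hp
        rw [Finset.mem_filter] at hp
        exact term_bound hr hδ hg hp.2
    _ = r ^ (-(3/2):ℝ) * (1 + 3 / (8 * Real.pi * r)) *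
          ∑ p ∈ F.filter (fun p => p ≠ 0), hh ((y^4)⁻¹) ((p.1:ℝ)^2 + (p.2:ℝ)^2) := by
        rw [Finset.mul_sum]
    _ ≤ _ := by
        apply mul_le_mul_of_nonneg_left _ hpos
        apply lattice_sum hy
        intro p hp
        rw [Finset.mem_filter] at hp
        exact hp.2

/-- `r²/π · TT` for `r` close to `y⁶` -/
lemma main_term {r δ y : ℝ} (hy : 1 ≤ y) (hδ : 0 < δ) (hg : 13/2 * δ^2 = (y^4)⁻¹)
    (hr1 : y^6 - δ ≤ r) (hr2 : r ≤ y^6 + δ) (hδ1 : δ * y^2 ≤ 39224/100000) :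
    r^2 / Real.pi * TT r δ ≤ (y^3 + 1/5 * (y^5)⁻¹) * (1 + 1/5 * (y^6)⁻¹) *
      ((1309/240) * y - 2148/1000 + (27/1000) * (y^4)⁻¹) := by
  have hy0 : 0 < y := by linarith
  have hy6 : 1 ≤ y^6 := one_le_pow₀ hy
  have hy2 : 1 ≤ y^2 := one_le_pow₀ hy
  have hpi := Real.pi_gt_d4
  have hδy : δ ≤ 39224/100000 := by nlinarith
  have hr : 0 < r := by linarith
  have hI : 0 ≤ (1309/240) * y - 2148/1000 + (27/1000) * (y^4)⁻¹ := by
    have : 0 < (y^4)⁻¹ := by positivity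
    nlinarith
  have h1 := TT_bound hy hr hδ hg
  have h2 : r^2 / Real.pi * TT r δ ≤ r^2 / Real.pi * (r ^ (-(3/2):ℝ) * (1 + 3 / (8 * Real.pi * r)) *
      (Real.pi * ((1309/240) * y - 2148/1000 + (27/1000) * (y^4)⁻¹))) :=
    mul_le_mul_of_nonneg_left h1 (by positivity)
  refine h2.trans ?_
  have e1 : r^2 * r ^ (-(3/2):ℝ) = √r := by
    rw [Real.sqrt_eq_rpow, ← Real.rpow_natCast, ← Real.rpow_add hr]
    norm_num
  have e2 : r^2 / Real.pi * (r ^ (-(3/2):ℝ) * (1 + 3 / (8 * Real.pi * r)) *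
      (Real.pi * ((1309/240) * y - 2148/1000 + (27/1000) * (y^4)⁻¹))) =
      √r * (1 + 3 / (8 * Real.pi * r)) * ((1309/240) * y - 2148/1000 + (27/1000) * (y^4)⁻¹) := by
    rw [← e1]
    have := Real.pi_pos.ne'
    field_simp
  rw [e2]
  apply mul_le_mul_of_nonneg_right _ hI
  apply mul_le_mul _ _ (by positivity) (by positivity)
  · rw [Real.sqrt_le_left (by positivity)]
    have e3 : (y^3 + 1/5 * (y^5)⁻¹)^2 = y^6 + 2/5 * (y^2)⁻¹ + 1/25 * ((y^5)⁻¹)^2 := by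
      field_simp
      ring
    rw [e3]
    have h5 : δ ≤ 2/5 * (y^2)⁻¹ := by
      rw [← div_eq_mul_inv, le_div_iff₀ (by positivity)]
      linarith
    have h6 : 0 ≤ 1/25 * ((y^5)⁻¹)^2 := by positivity
    linarith
  · have h7 : 3 / (8 * Real.pi * r) ≤ 1/5 * (y^6)⁻¹ := by
      rw [← div_eq_mul_inv, div_le_div_iff₀ (by positivity) (by positivity)]
      have h8 : (1 - 39224/100000) * y^6 ≤ r := by nlinarith
      have h9 : 3 * y^6 ≤ 1/5 * (8 * 3.1415 * ((1 - 39224/100000) * y^6)) := by nlinarith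
      have h10 : 1/5 * (8 * 3.1415 * ((1 - 39224/100000) * y^6)) ≤ 1/5 * (8 * Real.pi * r) := by
        gcongr
      linarith
    linarith

lemma poly_final {x : ℝ} (hx0 : 0 < x) (hx1 : x ≤ 1) :
    24646/10000 + 4834/10000 * x^8 + (1 + 1/5 * x^8) * (1 + 1/5 * x^6) *
      (1309/240 - 2148/1000 * x + 27/1000 * x^5) ≤ 8 := by
  have p5 : x^5 ≤ x := by
    have : x^4 ≤ 1 := pow_le_one₀ hx0.le hx1
    nlinarith
  have p5' : 0 < x^5 := by positivity
  have p6 : 0 < x^6 := by positivity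
  have p8 : x^8 ≤ x^6 := pow_le_pow_of_le_one hx0.le hx1 (by norm_num)
  have p8' : 0 < x^8 := by positivity
  have p61 : x^6 ≤ 1 := pow_le_one₀ hx0.le hx1
  have a1 : (1 + 1/5 * x^8) * (1 + 1/5 * x^6) ≤ 1 + 44/100 * x^6 := by nlinarith
  have a2 : 1309/240 - 2148/1000 * x + 27/1000 * x^5 ≤ 1309/240 - 2121/1000 * x := by linarith
  have a3 : 0 ≤ 1309/240 - 2121/1000 * x := by nlinarith
  have a4 : (1 + 1/5 * x^8) * (1 + 1/5 * x^6) * (1309/240 - 2148/1000 * x + 27/1000 * x^5) ≤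
      (1 + 44/100 * x^6) * (1309/240 - 2121/1000 * x) := by
    calc (1 + 1/5 * x^8) * (1 + 1/5 * x^6) * (1309/240 - 2148/1000 * x + 27/1000 * x^5)
        ≤ (1 + 1/5 * x^8) * (1 + 1/5 * x^6) * (1309/240 - 2121/1000 * x) :=
          mul_le_mul_of_nonneg_left a2 (by positivity)
      _ ≤ _ := mul_le_mul_of_nonneg_right a1 a3
  have b1 : x^5 * (24/10 - 933/1000 * x + 4834/10000 * x^2) ≤ 19504/10000 := by
    have c1 : 24/10 - 933/1000 * x + 4834/10000 * x^2 ≤ 19504/10000 + 4496/10000 * (1 - x) := by nlinarith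
    have c2 : 0 ≤ 19504/10000 + 4496/10000 * (1 - x) := by nlinarith
    calc x^5 * (24/10 - 933/1000 * x + 4834/10000 * x^2) ≤ x^5 * (19504/10000 + 4496/10000 * (1 - x)) :=
          mul_le_mul_of_nonneg_left c1 p5'.le
      _ ≤ x * (19504/10000 + 4496/10000 * (1 - x)) := mul_le_mul_of_nonneg_right p5 c2
      _ ≤ _ := by nlinarith
  have b2 := mul_le_mul_of_nonneg_left b1 hx0.le
  have b3 : x * (x^5 * (24/10 - 933/1000 * x + 4834/10000 * x^2)) =
      24/10 * x^6 - 933/1000 * x^7 + 4834/10000 * x^8 := by ring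
  rw [b3] at b2
  have p7 : 0 < x^7 := by positivity
  have e : (1 + 44/100 * x^6) * (1309/240 - 2121/1000 * x) = 1309/240 - 2121/1000 * x +
      (44/100 * (1309/240)) * x^6 - (44/100 * (2121/1000)) * x^7 := by ring
  rw [e] at a4
  nlinarith

/-- **Explicit bound for the number of lattice points in an arbitrary disc.** -/
theorem disc_bound (a b : ℝ) {y : ℝ} (hy : 1 ≤ y) :
    |NN a b (y^6) - Real.pi * (y^6)^2| ≤ 8 * y^4 := by
  have hy0 : 0 < y := by linarith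
  have hpi1 := Real.pi_gt_d4
  have hpi2 := Real.pi_lt_d4
  have hy6 : 1 ≤ y^6 := one_le_pow₀ hy
  have hy2 : 1 ≤ y^2 := one_le_pow₀ hy
  set s : ℝ := √(2/13) with hs
  have hs0 : 0 < s := by rw [hs]; positivity
  have hs2 : s^2 = 2/13 := by rw [hs]; exact Real.sq_sqrt (by norm_num)
  have hs1 : s ≤ 39224/100000 := by
    rw [hs, Real.sqrt_le_left (by norm_num)]; norm_num
  set δ : ℝ := s * (y^2)⁻¹ with hδdef
  have hδ : 0 < δ := by positivity
  have hδy : δ * y^2 = s := by rw [hδdef]; field_simp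
  have hδ1 : δ * y^2 ≤ 39224/100000 := by rw [hδy]; exact hs1
  have hδle : δ ≤ 39224/100000 := by nlinarith
  have hδ2 : δ^2 = 2/13 * (y^4)⁻¹ := by
    rw [hδdef, mul_pow, hs2, ← inv_pow, ← inv_pow]
    ring
  have hg : 13/2 * δ^2 = (y^4)⁻¹ := by rw [hδ2]; ring
  have hδR : y^6 * δ = s * y^4 := by rw [hδdef]; field_simp
  set I : ℝ := (y^3 + 1/5 * (y^5)⁻¹) * (1 + 1/5 * (y^6)⁻¹) *
      ((1309/240) * y - 2148/1000 + (27/1000) * (y^4)⁻¹) with hI
  have hup := NN_le a b (R := y^6) (by positivity) hδ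
  have hlo := le_NN a b (R := y^6) hδ (by linarith)
  have m1 := main_term hy hδ hg (r := y^6 + δ) (by linarith) le_rfl hδ1
  have m2 := main_term hy hδ hg (r := y^6 - δ) le_rfl (by linarith) hδ1
  have hfin : 2 * Real.pi * s * y^4 + Real.pi * δ^2 + I ≤ 8 * y^4 := by
    have hx0 : 0 < y⁻¹ := by positivity
    have hx1 : y⁻¹ ≤ 1 := inv_le_one_of_one_le₀ hy
    have hp := poly_final hx0 hx1
    have hy4 : 0 < y^4 := by positivity
    have hp2 := mul_le_mul_of_nonneg_left hp hy4.le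
    have e : y^4 * (24646/10000 + 4834/10000 * y⁻¹^8 + (1 + 1/5 * y⁻¹^8) * (1 + 1/5 * y⁻¹^6) *
        (1309/240 - 2148/1000 * y⁻¹ + 27/1000 * y⁻¹^5)) =
        24646/10000 * y^4 + 4834/10000 * (y^4)⁻¹ + I := by
      rw [hI]
      field_simp
    rw [e] at hp2
    have q1 : 2 * Real.pi * s ≤ 24646/10000 := by
      calc 2 * Real.pi * s ≤ 2 * 3.1416 * (39224/100000) := by gcongr
        _ ≤ _ := by norm_num
    have q2 : Real.pi * δ^2 ≤ 4834/10000 * (y^4)⁻¹ := by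
      rw [hδ2]
      have hY : 0 < (y^4)⁻¹ := by positivity
      have h0 : Real.pi * (2/13) ≤ 4834/10000 := by linarith
      have h1 := mul_le_mul_of_nonneg_right h0 hY.le
      linarith
    have q3 : 2 * Real.pi * s * y^4 ≤ 24646/10000 * y^4 := mul_le_mul_of_nonneg_right q1 hy4.le
    linarith
  have e1 : Real.pi * (y^6 + δ)^2 = Real.pi * (y^6)^2 + 2 * Real.pi * s * y^4 + Real.pi * δ^2 := by
    have : (y^6 + δ)^2 = (y^6)^2 + 2 * (y^6 * δ) + δ^2 := by ring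
    rw [this, hδR]; ring
  have e2 : Real.pi * (y^6 - δ)^2 = Real.pi * (y^6)^2 - 2 * Real.pi * s * y^4 + Real.pi * δ^2 := by
    have : (y^6 - δ)^2 = (y^6)^2 - 2 * (y^6 * δ) + δ^2 := by ring
    rw [this, hδR]; ring
  have hpd : 0 < Real.pi * δ^2 := by positivity
  rw [e1] at hup
  rw [e2] at hlo
  rw [abs_le]
  constructor
  · linarith
  · linarith

end Pool.Agent.TH854.GC
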